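import Pool.Agent.TH950.FC.Defs

set_option autoImplicit false

/-!
# Uniqueness of short non-backtracking walks in a graph of large girth
-/

namespace Pool.Agent.TH950.FC

namespace J862

open SimpleGraph

variable {V : Type}

/-- The list of edges of a list of vertices. -/
def el (p : List V) : List (Sym2 V) := List.zipWith (fun x y => s(x, y)) p p.tail

theorem length_el (p : List V) : (el p).length = p.length - 1 := by
  simp [el]

theorem mem_el {p : List V} (i : ℕ) (h : i + 1 < p.length) : s(p[i], p[i + 1]) ∈ el p := by
  rw [List.mem_iff_getElem]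
  refine ⟨i, by rw [length_el]; omega, ?_⟩
  simp [el, List.getElem_zipWith, List.getElem_tail]

theorem el_adj {G : SimpleGraph V} {p : List V}
    (hadj : ∀ i (h : i + 1 < p.length), G.Adj p[i] p[i + 1]) {e : Sym2 V} (he : e ∈ el p) :
    e ∈ G.edgeSet := by
  rw [List.mem_iff_getElem] at he
  obtain ⟨i, hi, rfl⟩ := he
  rw [length_el] at hi
  simp only [el, List.getElem_zipWith, List.getElem_tail]
  exact hadj i (by omega)

theorem isPath_of {H : SimpleGraph V} (hH : H.IsAcyclic) (p : List V) (hne : p ≠ [])
    (hch : p.IsChain H.Adj) (hnb : ∀ i (h : i + 2 < p.length), p[i] ≠ p[i + 2]) :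
    (Walk.ofSupport p hne hch).IsPath := by
  rw [hH.isPath_iff_isChain, Walk.edges_eq_zipWith_support, Walk.support_ofSupport,
    List.isChain_iff_getElem]
  intro i hi
  simp only [List.length_zipWith, List.length_tail] at hi
  simp only [List.getElem_zipWith, List.getElem_tail]
  intro heq
  have h1 : H.Adj p[i] p[i + 1] := List.isChain_iff_getElem.1 hch i (by omega)
  rw [Sym2.eq_iff] at heq
  rcases heq with ⟨h, _⟩ | ⟨h, _⟩
  · exact h1.ne h
  · exact hnb i (by omega) h

end J862

open SimpleGraph J862 in
/-- In a graph without cycles shorter than `g`, two non-backtracking walks with the same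
endpoints whose total number of edges is less than `g` coincide. -/
theorem nbwalk_unique {V : Type} (G : SimpleGraph V) (g : ℕ)
    (hg : ∀ (v : V) (c : G.Walk v v), c.IsCycle → g ≤ c.length)
    (p q : List V) (hp : NBWalk G p) (hq : NBWalk G q) (h0 : p.head? = q.head?)
    (h1 : p.getLast? = q.getLast?) (hlen : (p.length - 1) + (q.length - 1) < g) : p = q := by
  classical
  obtain ⟨hpne, hpadj, hpnb⟩ := hp
  obtain ⟨hqne, hqadj, hqnb⟩ := hq
  set H : SimpleGraph V := SimpleGraph.fromEdgeSet {e | e ∈ el p ++ el q} with hHdef
  have hle : H ≤ G := by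
    intro a b hab
    rw [hHdef, SimpleGraph.fromEdgeSet_adj] at hab
    have h := hab.1
    simp only [Set.mem_setOf_eq, List.mem_append] at h
    rcases h with h | h
    · exact el_adj hpadj h
    · exact el_adj hqadj h
  have hHac : H.IsAcyclic := by
    intro v c hc
    have h2 := hg v (c.mapLe hle) (hc.mapLe hle)
    have h3 : (c.mapLe hle).length = c.length := by simp
    have h4 : c.edges.length = c.length := c.length_edges
    have h5 : c.edges.Nodup := hc.edges_nodup
    have h6 : c.edges ⊆ el p ++ el q := by
      intro e he
      have := c.edges_subset_edgeSet he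
      rw [hHdef, SimpleGraph.edgeSet_fromEdgeSet] at this
      exact this.1
    have h7 := (h5.subperm h6).length_le
    rw [List.length_append, length_el, length_el] at h7
    omega
  have hpc : p.IsChain H.Adj := by
    rw [List.isChain_iff_getElem]
    intro i hi
    rw [hHdef, SimpleGraph.fromEdgeSet_adj]
    exact ⟨List.mem_append_left _ (mem_el i hi), (hpadj i hi).ne⟩
  have hqc : q.IsChain H.Adj := by
    rw [List.isChain_iff_getElem]
    intro i hi
    rw [hHdef, SimpleGraph.fromEdgeSet_adj]
    exact ⟨List.mem_append_right _ (mem_el i hi), (hqadj i hi).ne⟩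
  have hP := isPath_of hHac p hpne hpc hpnb
  have hQ := isPath_of hHac q hqne hqc hqnb
  have hhead : p.head hpne = q.head hqne := by
    rw [List.head?_eq_some_head hpne, List.head?_eq_some_head hqne] at h0
    exact Option.some.inj h0
  have hlast : p.getLast hpne = q.getLast hqne := by
    rw [List.getLast?_eq_some_getLast hpne, List.getLast?_eq_some_getLast hqne] at h1
    exact Option.some.inj h1
  have hP' : ((Walk.ofSupport p hpne hpc).copy hhead hlast).IsPath := by
    simpa using hP
  have hun := hHac.path_unique ⟨_, hP'⟩ ⟨_, hQ⟩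
  have hw : (Walk.ofSupport p hpne hpc).copy hhead hlast = Walk.ofSupport q hqne hqc :=
    congrArg Subtype.val hun
  have hs := congrArg Walk.support hw
  rw [Walk.support_copy, Walk.support_ofSupport, Walk.support_ofSupport] at hs
  exact hs

end Pool.Agent.TH950.FC
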