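import Pool.Agent.TH950.FC.Defs

set_option autoImplicit false

/-!
# Properness of the wall metric

If two points are at bounded wall distance, then they are joined by a word of bounded length.
-/

namespace Pool.Agent.TH950.FC

open scoped symmDiff

namespace J867

theorem path_append {S V : Type} (X : LG S V) :
    ∀ (u v : List S) (x y z : V), X.Path x u y → X.Path y v z → X.Path x (u ++ v) z
  | [], v, x, y, z, h1, h2 => by
      have h : x = y := h1
      subst h
      exact h2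
  | s :: u, v, x, y, z, h1, h2 => by
      obtain ⟨t, ht, h⟩ := h1
      exact ⟨t, ht, path_append X u v t y z h h2⟩

theorem path_det {S V : Type} (X : LG S V) :
    ∀ (w : List S) (x y z : V), X.Path x w y → X.Path x w z → y = z
  | [], x, y, z, h1, h2 => by
      have h : x = y := h1
      have h' : x = z := h2
      rw [← h, ← h']
  | s :: w, x, y, z, h1, h2 => by
      obtain ⟨t, ht, h⟩ := h1
      obtain ⟨t', ht', h'⟩ := h2
      have : t = t' := X.func ht ht'
      subst this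
      exact path_det X w t y z h h'

theorem lift {S Q : Type} [DecidableEq Q] (X : LG S Q) :
    ∀ (w : List S) (q r : Q) (A : Finset (Sym2 Q)), X.Path q w r →
      ∃ B, X.cov.Path (q, A) w (r, B)
  | [], q, r, A, h => by
      have h' : q = r := h
      subst h'
      exact ⟨A, rfl⟩
  | s :: w, q, r, A, h => by
      obtain ⟨t, ht, h⟩ := h
      obtain ⟨B, hB⟩ := lift X w t r (A ∆ {s(q, t)}) h
      exact ⟨B, (t, A ∆ {s(q, t)}), ⟨ht, rfl⟩, hB⟩

/-- The vertices of the cover reachable from `(q, ∅)` form a finite set. -/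
theorem cov_inv {S Q : Type} [DecidableEq Q] (T : Theta S Q) (m : ℕ) (F : Finset Q)
    (hF : ∀ r, T.g r = m → r ∈ F) :
    ∀ (w : List S) (c c' : Q × Finset (Sym2 Q)), T.cov.Path c w c' → T.g c.1 = m →
      c.2 ⊆ F.sym2 → T.g c'.1 = m ∧ c'.2 ⊆ F.sym2
  | [], c, c', h, h1, h2 => by
      have h' : c = c' := h
      subst h'
      exact ⟨h1, h2⟩
  | s :: w, c, c', h, h1, h2 => by
      obtain ⟨d, hd, h⟩ := h
      have hg : T.g d.1 = m := by rw [T.g_edge hd.1, h1]
      refine cov_inv T m F hF w d c' h hg ?_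
      rw [hd.2]
      intro e he
      rcases Finset.mem_symmDiff.1 he with he | he
      · exact h2 he.1
      · have : e = s(c.1, d.1) := by simpa using he.1
        rw [this, Finset.mk_mem_sym2_iff]
        exact ⟨hF _ h1, hF _ hg⟩

theorem finite_reach {S Q : Type} [DecidableEq Q] (T : Theta S Q) (q : Q) :
    {c | T.cov.Reach (q, ∅) c}.Finite := by
  classical
  have hfin := T.fin (T.g q)
  refine (Finset.finite_toSet (hfin.toFinset ×ˢ hfin.toFinset.sym2.powerset)).subset ?_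
  rintro c ⟨w, hw⟩
  have hF : ∀ r, T.g r = T.g q → r ∈ hfin.toFinset := by
    intro r hr
    rw [Set.Finite.mem_toFinset]
    exact hr.le
  have h := cov_inv T (T.g q) hfin.toFinset hF w (q, ∅) c hw rfl (by simp)
  simp only [Finset.coe_product, Set.mem_prod, Finset.mem_coe, Finset.mem_powerset]
  exact ⟨hF _ h.1, h.2⟩

theorem bound_of_finite {α : Type} {A : Set α} (hA : A.Finite) (P : α → ℕ → Prop)
    (hmono : ∀ a m n, m ≤ n → P a m → P a n) (h : ∀ a ∈ A, ∃ n, P a n) :
    ∃ n, ∀ a ∈ A, P a n := by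
  classical
  choose! f hf using h
  refine ⟨hA.toFinset.sup f, fun a ha => ?_⟩
  exact hmono a _ _ (Finset.le_sup (f := f) (hA.mem_toFinset.2 ha)) (hf a ha)

theorem word_bound {S Q : Type} [DecidableEq Q] (T : Theta S Q) (q : Q) :
    ∃ n, ∀ c, T.cov.Reach (q, ∅) c → ∃ w : List S, w.length ≤ n ∧ T.cov.Path (q, ∅) w c := by
  refine bound_of_finite (finite_reach T q)
    (fun c n => ∃ w : List S, w.length ≤ n ∧ T.cov.Path (q, ∅) w c) ?_ ?_
  · rintro c m n hmn ⟨w, hw, h⟩
    exact ⟨w, hw.trans hmn, h⟩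
  · rintro c ⟨w, hw⟩
    exact ⟨w.length, w, le_rfl, hw⟩

theorem word_bound' {S Q : Type} [DecidableEq Q] (T : Theta S Q) (M : ℕ) :
    ∃ n, ∀ q, T.g q ≤ M → ∀ c, T.cov.Reach (q, ∅) c →
      ∃ w : List S, w.length ≤ n ∧ T.cov.Path (q, ∅) w c := by
  refine bound_of_finite (T.fin M) (fun q n => ∀ c, T.cov.Reach (q, ∅) c →
      ∃ w : List S, w.length ≤ n ∧ T.cov.Path (q, ∅) w c) ?_ ?_
  · rintro q m n hmn h c hc
    obtain ⟨w, hw, h'⟩ := h c hc
    exact ⟨w, hw.trans hmn, h'⟩
  · intro q _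
    exact word_bound T q

/-- Paths of the cover are mapped to paths by a chart. -/
theorem map_path {S Q V : Type} [DecidableEq Q] (T : Theta S Q) (X : LG S V) (q : Q)
    (ι : Q × Finset (Sym2 Q) → V)
    (h : ∀ c, T.cov.Reach (q, ∅) c → ∀ s c', T.cov.E s c c' → X.E s (ι c) (ι c')) :
    ∀ (w : List S) (c c' : Q × Finset (Sym2 Q)), T.cov.Reach (q, ∅) c → T.cov.Path c w c' →
      X.Path (ι c) w (ι c')
  | [], c, c', _, hp => by
      have hp' : c = c' := hp
      subst hp'
      exact rfl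
  | s :: w, c, c', hc, hp => by
      obtain ⟨d, hd, hp⟩ := hp
      refine ⟨ι d, h c hc s d hd, map_path T X q ι h w d c' ?_ hp⟩
      obtain ⟨u, hu⟩ := hc
      exact ⟨u ++ [s], path_append T.cov u [s] _ _ _ hu ⟨d, hd, rfl⟩⟩

theorem step_word {S Q V W : Type} [DecidableEq Q] [DecidableEq W] (T : Theta S Q)
    (X : LG S V) (β : V → Finset W) (ω : S → V → ℤ) {n : ℕ} {q : Q}
    (hn : ∀ c, T.cov.Reach (q, ∅) c → ∃ w : List S, w.length ≤ n ∧ T.cov.Path (q, ∅) w c)
    {y z : V} {w : List S} (hch : Charted T X β ω y q) (hr : T.Readable q w)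
    (hp : X.Path y w z) : ∃ w' : List S, w'.length ≤ n ∧ X.Path y w' z := by
  obtain ⟨ι, j, ψ, -, hι, h⟩ := hch
  have hE : ∀ c, T.cov.Reach (q, ∅) c → ∀ s c', T.cov.E s c c' → X.E s (ι c) (ι c') :=
    fun c hc s c' hcc => ((h c hc).2 s c' hcc).1
  obtain ⟨r, hr⟩ := hr
  obtain ⟨B, hB⟩ := lift T.toLG w q r ∅ hr
  have hreach0 : T.cov.Reach (q, ∅) (q, ∅) := ⟨[], rfl⟩
  have h1 := map_path T X q ι hE w _ _ hreach0 hB
  rw [hι] at h1
  have h2 : z = ι (r, B) := path_det X w y _ _ hp h1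
  obtain ⟨w', hw', hp'⟩ := hn (r, B) ⟨w, hB⟩
  refine ⟨w', hw', ?_⟩
  have h3 := map_path T X q ι hE w' _ _ hreach0 hp'
  rw [hι] at h3
  rw [h2]
  exact h3

theorem conn_word {S Q V W : Type} [DecidableEq Q] [DecidableEq W] (T : Theta S Q)
    (X : LG S V) (β : V → Finset W) (ω : S → V → ℤ) {M L : ℕ}
    (hL : ∀ q, T.g q ≤ M → ∀ c, T.cov.Reach (q, ∅) c →
      ∃ w : List S, w.length ≤ L ∧ T.cov.Path (q, ∅) w c)
    {x y : V} {n : ℕ} (h : Conn T X β ω x y n) (hn : n ≤ M) :
    ∃ w : List S, w.length ≤ (n / 100) * L ∧ X.Path x w y := by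
  induction h with
  | refl => exact ⟨[], by simp, rfl⟩
  | @step y z n q w hc hch hr hp ih =>
    obtain ⟨u, hu, hxu⟩ := ih (by omega)
    obtain ⟨v, hv, hyv⟩ := step_word T X β ω (hL q (by omega)) hch hr hp
    refine ⟨u ++ v, ?_, path_append X u v _ _ _ hxu hyv⟩
    have h100 := T.hundred_le q
    have h1 : n / 100 + 1 ≤ (n + T.g q) / 100 := by omega
    calc (u ++ v).length = u.length + v.length := List.length_append
      _ ≤ (n / 100) * L + L := by omega
      _ = (n / 100 + 1) * L := by ring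
      _ ≤ ((n + T.g q) / 100) * L := Nat.mul_le_mul_right L h1

end J867

/-- Properness of the wall metric. -/
theorem proper_of_limit {S Q V W H : Type} [DecidableEq Q] [DecidableEq W] [Group H]
    (T : Theta S Q) (a : S → H)
    (X : LG S V) (β : V → Finset W) (ω : S → V → ℤ) (p : V → H) (base : V)
    (hL : Limit T a X β ω p base) (N : ℕ) :
    ∃ L : ℕ, ∀ x y, (β x ∆ β y).card ≤ N → ∃ w : List S, w.length ≤ L ∧ X.Path x w y := by
  obtain ⟨L, hL'⟩ := J867.word_bound' T (100 * N)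
  refine ⟨N * L, fun x y hxy => ?_⟩
  obtain ⟨n, hc, hn⟩ := hL.metric x y
  have hn' : n ≤ 100 * N := hn.trans (Nat.mul_le_mul_left 100 hxy)
  obtain ⟨w, hw, hp⟩ := J867.conn_word T X β ω hL' hc hn'
  refine ⟨w, hw.trans (Nat.mul_le_mul_right L ?_), hp⟩
  omega

end Pool.Agent.TH950.FC
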